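import Pool.Agent.Helper23.MV.StP

/-! Project MV, module IN2: bound for `1/L` at good heights -/

set_option autoImplicit false

namespace Pool.Agent.Helper73.MV

open Pool.Agent.Helper23.MV Filter Topology
open Pool.Agent.Helper23.GK (StBca StTfo)

private lemma large_IN2 {ε K : ℝ} (hε : 0 < ε) (hK : 0 < K) :
    ∀ᶠ X : ℝ in atTop, K * Real.log X ^ 8 ≤ X ^ ε := by
  have h := (isLittleO_log_rpow_rpow_atTop (8 : ℝ) hε).bound (c := 1 / K) (by positivity)
  filter_upwards [h, eventually_gt_atTop (1 : ℝ)] with X hX hX1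
  have h1 : 0 < Real.log X := Real.log_pos hX1
  have h2 : 0 < X := by linarith
  have h3 : 0 ≤ X ^ ε := Real.rpow_nonneg h2.le _
  rw [Real.norm_of_nonneg (Real.rpow_nonneg h1.le _), Real.norm_of_nonneg h3] at hX
  have h4 : Real.log X ^ (8 : ℝ) = Real.log X ^ 8 := by
    rw [← Real.rpow_natCast]
    norm_num
  rw [h4] at hX
  calc K * Real.log X ^ 8 ≤ K * (1 / K * X ^ ε) := mul_le_mul_of_nonneg_left hX hK.le
    _ = X ^ ε := by field_simp

theorem hIn2 (hT : StTfo) (hB : StBca) (hG : StGrw) : StIn2 := by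
  obtain ⟨-, -, hT3⟩ := hT
  obtain ⟨c0, X1, hc0, hc08, hX1, hG⟩ := hG (1 / 10000) (by norm_num) (by norm_num)
  refine ⟨min (1 / 100) (c0 / 10), by positivity, min_le_left _ _, ?_⟩
  intro η hη hη1
  have hη2 : η ≤ 1 / 100 := hη1.trans (min_le_left _ _)
  have hη3 : η ≤ c0 / 10 := hη1.trans (min_le_right _ _)
  obtain ⟨X2, hX2⟩ := (large_IN2 (ε := η / 5000) (K := (2 / η) ^ 5) (by positivity)
    (by positivity)).exists_forall_of_atTop
  refine ⟨max (max X1 X2) (Real.exp 1), le_trans hX1 ((le_max_left _ _).trans (le_max_left _ _)), ?_⟩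
  intro X e σ τ hX her hτ hτ1 hzf hσ1 hσ2
  have hXX1 : X1 ≤ X := ((le_max_left _ _).trans (le_max_left _ _)).trans hX
  have hXX2 : X2 ≤ X := ((le_max_right _ _).trans (le_max_left _ _)).trans hX
  have hXe : Real.exp 1 ≤ X := (le_max_right _ _).trans hX
  have hX2' : 2 ≤ X := hX1.trans hXX1
  have hX0 : 0 < X := by linarith
  have hX1' : 1 ≤ X := by linarith
  have hlog : 1 ≤ Real.log X := by
    rw [Real.le_log_iff_exp_le hX0]
    exact hXe
  have hbig := hX2 X hXX2
  have hη0 : 1 ≤ 2 / η := by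
    rw [le_div_iff₀ hη]
    linarith
  have h2η : 2 / η ≤ X ^ (η / 1000) := by
    have h1 : 2 / η ≤ (2 / η) ^ 5 * Real.log X ^ 8 := by
      have h2 : 2 / η ≤ (2 / η) ^ 5 := by
        calc 2 / η = (2 / η) ^ 1 := (pow_one _).symm
          _ ≤ (2 / η) ^ 5 := pow_le_pow_right₀ hη0 (by norm_num)
      have h3 : 1 ≤ Real.log X ^ 8 := one_le_pow₀ hlog
      calc 2 / η ≤ (2 / η) ^ 5 := h2
        _ ≤ (2 / η) ^ 5 * Real.log X ^ 8 := le_mul_of_one_le_right (by positivity) h3
    exact (h1.trans hbig).trans (Real.rpow_le_rpow_of_exponent_le hX1' (by linarith))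
  unfold PCh.L
  rcases le_or_gt (1 + η) σ with hcase | hcase
  · have hre : ((σ : ℂ) + τ * Complex.I).re = σ := by simp
    obtain ⟨h1, h2⟩ := hT3 e.r e.χ (σ + τ * Complex.I) (by rw [hre]; linarith)
    rw [hre] at h2
    refine ⟨h1, h2.trans (le_trans ?_ h2η)⟩
    exact div_le_div₀ (by norm_num) hσ2 hη (by linarith)
  · obtain ⟨s0, hs0⟩ : ∃ s0 : ℂ, s0 = ((1 + η : ℝ) : ℂ) + τ * Complex.I := ⟨_, rfl⟩
    have hs0re : s0.re = 1 + η := by rw [hs0]; simp
    have hs0im : s0.im = τ := by rw [hs0]; simp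
    obtain ⟨hL0, hL0i⟩ := hT3 e.r e.χ s0 (by rw [hs0re]; linarith)
    have hL0b : ‖(DirichletCharacter.LFunction e.χ s0)⁻¹‖ ≤ 2 / η := by
      refine hL0i.trans ?_
      rw [hs0re]
      have : (1 : ℝ) + η - 1 = η := by ring
      rw [this]
      exact div_le_div_of_nonneg_right (by linarith) hη.le
    have hball : ∀ s ∈ Metric.ball s0 (3 * η), 1 - 2 * η < s.re ∧ s.re ≤ 2 ∧ |s.im - τ| < 3 * η := by
      intro s hs
      rw [Metric.mem_ball, Complex.dist_eq] at hs
      have h1 := (Complex.abs_re_le_norm (s - s0)).trans_lt hs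
      have h2 := (Complex.abs_im_le_norm (s - s0)).trans_lt hs
      rw [Complex.sub_re, hs0re, abs_lt] at h1
      rw [Complex.sub_im, hs0im] at h2
      exact ⟨by linarith, by linarith, h2⟩
    have him : e.χ = 1 → ∀ s ∈ Metric.ball s0 (3 * η), 1 / 4 ≤ |s.im| := by
      intro h s hs
      have h1 := hτ1 h
      have h2 := (hball s hs).2.2
      have h3 := abs_sub_abs_le_abs_sub τ s.im
      rw [abs_sub_comm] at h3
      linarith
    have hdiff : DifferentiableOn ℂ (DirichletCharacter.LFunction e.χ) (Metric.ball s0 (3 * η)) := by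
      intro s hs
      refine (DirichletCharacter.differentiableAt_LFunction e.χ s ?_).differentiableWithinAt
      by_cases h : e.χ = 1
      · left
        intro h1
        have := him h s hs
        rw [h1] at this
        norm_num at this
      · right
        exact h
    have hnz : ∀ s ∈ Metric.ball s0 (3 * η), DirichletCharacter.LFunction e.χ s ≠ 0 := by
      intro s hs h0
      obtain ⟨h1, -, h3⟩ := hball s hs
      have h4 := hzf s h0 h1.le
      linarith
    obtain ⟨B, hBd⟩ : ∃ B : ℝ, B = X ^ (2 * η / 10000) * Real.log X ^ 2 * (2 / η) := ⟨_, rfl⟩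
    have hXp1 : 1 ≤ X ^ (2 * η / 10000) := Real.one_le_rpow hX1' (by positivity)
    have hB1 : 1 < B := by
      rw [hBd]
      have h1 : 1 ≤ X ^ (2 * η / 10000) * Real.log X ^ 2 := by
        have : 1 ≤ Real.log X ^ 2 := one_le_pow₀ hlog
        nlinarith
      have h2 : 1 < 2 / η := by
        rw [lt_div_iff₀ hη]
        linarith
      nlinarith
    have hB0 : 0 < B := by linarith
    have hq : (e.r : ℝ) ≤ X ^ c0 :=
      her.trans (Real.rpow_le_rpow_of_exponent_le hX1' (by linarith))
    have hbd : ∀ s ∈ Metric.ball s0 (3 * η), ‖DirichletCharacter.LFunction e.χ s‖ ≤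
        Real.exp (Real.log B) * ‖DirichletCharacter.LFunction e.χ s0‖ := by
      intro s hs
      obtain ⟨h1, h2, h3⟩ := hball s hs
      have h4 : |s.im| ≤ X ^ 2 := by
        have h5 := abs_sub_abs_le_abs_sub s.im τ
        nlinarith
      have h5 := (hG X e.r e.χ s hXX1 hq (by linarith) h2 h4).1 (fun h => by
        have h6 := him h s hs
        have h7 := Complex.abs_im_le_norm (s - 1)
        have h8 : (s - 1).im = s.im := by simp
        rw [h8] at h7
        linarith)
      have h6 : X ^ (1 / 10000 * max 0 (1 - s.re)) ≤ X ^ (2 * η / 10000) := by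
        apply Real.rpow_le_rpow_of_exponent_le hX1'
        have : max 0 (1 - s.re) ≤ 2 * η := max_le (by linarith) (by linarith)
        linarith
      have h7 : 1 ≤ 2 / η * ‖DirichletCharacter.LFunction e.χ s0‖ := by
        rw [norm_inv, inv_le_comm₀ (norm_pos_iff.mpr hL0) (by positivity)] at hL0b
        have h8 : (2 / η) * (2 / η)⁻¹ = 1 := mul_inv_cancel₀ (by positivity)
        calc (1 : ℝ) = (2 / η) * (2 / η)⁻¹ := h8.symm
          _ ≤ _ := mul_le_mul_of_nonneg_left hL0b (by positivity)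
      rw [Real.exp_log hB0, hBd]
      have h9 : 0 ≤ X ^ (2 * η / 10000) * Real.log X ^ 2 := by positivity
      calc ‖DirichletCharacter.LFunction e.χ s‖
          ≤ X ^ (1 / 10000 * max 0 (1 - s.re)) * Real.log X ^ 2 := h5
        _ ≤ X ^ (2 * η / 10000) * Real.log X ^ 2 :=
            mul_le_mul_of_nonneg_right h6 (by positivity)
        _ ≤ X ^ (2 * η / 10000) * Real.log X ^ 2 *
              (2 / η * ‖DirichletCharacter.LFunction e.χ s0‖) := le_mul_of_one_le_right h9 h7
        _ = _ := by ring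
    have hfin := hB (DirichletCharacter.LFunction e.χ) s0 (3 * η) (Real.log B) (2 / 3)
      (by positivity) (Real.log_pos hB1) (by norm_num) (by norm_num) hdiff hnz hbd
      (σ + τ * Complex.I) (by
        have h1 : (σ : ℂ) + τ * Complex.I - s0 = ((σ - (1 + η) : ℝ) : ℂ) := by
          rw [hs0]
          push_cast
          ring
        rw [h1, Complex.norm_real, Real.norm_eq_abs, abs_le]
        constructor <;> linarith)
    have hmem : ((σ : ℂ) + τ * Complex.I) ∈ Metric.ball s0 (3 * η) := by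
      rw [Metric.mem_ball, Complex.dist_eq]
      have h1 : (σ : ℂ) + τ * Complex.I - s0 = ((σ - (1 + η) : ℝ) : ℂ) := by
        rw [hs0]
        push_cast
        ring
      rw [h1, Complex.norm_real, Real.norm_eq_abs, abs_lt]
      constructor <;> linarith
    refine ⟨hnz _ hmem, hfin.trans ?_⟩
    have h1 : Real.exp (2 * Real.log B * (2 / 3) / (1 - 2 / 3)) = B ^ 4 := by
      rw [← Real.exp_log hB0, ← Real.exp_nat_mul, Real.log_exp]
      congr 1
      push_cast
      ring
    rw [h1]
    calc B ^ 4 * ‖(DirichletCharacter.LFunction e.χ s0)⁻¹‖ ≤ B ^ 4 * (2 / η) :=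
          mul_le_mul_of_nonneg_left hL0b (by positivity)
      _ = (X ^ (2 * η / 10000)) ^ 4 * ((2 / η) ^ 5 * Real.log X ^ 8) := by
          rw [hBd]
          ring
      _ ≤ (X ^ (2 * η / 10000)) ^ 4 * X ^ (η / 5000) :=
          mul_le_mul_of_nonneg_left hbig (by positivity)
      _ = X ^ (η / 1000) := by
          rw [← Real.rpow_natCast, ← Real.rpow_mul hX0.le, ← Real.rpow_add hX0]
          congr 1
          push_cast
          ring

end Pool.Agent.Helper73.MV
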