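import Pool.Agent.Helper23.MV.StC

/-! Project MV, module NEF: norms of the errors at the primes of size `√X` -/

set_option autoImplicit false

namespace Pool.Agent.Helper73.MV

open Pool.Agent.Helper23.MV Finset
open Pool.Agent.Helper48.BK (ex th Sx Apx)

private lemma zs_nonneg_NEF (o : Option (PCh × ℝ)) (c : PCh) (η T Y : ℝ) (hY : 0 ≤ Y) :
    0 ≤ ZS o c η T Y := by
  unfold ZS
  exact sum_nonneg (fun ρ _ => mul_nonneg (Nat.cast_nonneg _) (Real.rpow_nonneg hY _))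

private lemma window_NEF (H h y : ℕ) (hy1 : 2 * H - h ≤ y) (hy2 : y < 3 * H) :
    (Ioc y (y + h)).filter (fun n => 2 * H < n ∧ n ≤ 3 * H) =
      Ioc (max y (2 * H)) (max y (2 * H) + (min (y + h) (3 * H) - max y (2 * H))) := by
  ext n
  simp only [mem_filter, mem_Ioc]
  omega

theorem hNef (hG : StGal) (hF : StFs) : StNef := by
  obtain ⟨η₁, hη₁, hη₁', hF⟩ := hF
  refine ⟨η₁, hη₁, hη₁', ?_⟩
  intro η hη hηη
  obtain ⟨C, X0, hC, hX0, hF⟩ := hF η hη hηη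
  refine ⟨12 * C, max X0 625, by linarith, le_trans hX0 (le_max_left _ _), ?_⟩
  intro X o c P hX ho hc hP1 hP2
  have hXX0 : X0 ≤ X := (le_max_left _ _).trans hX
  have hX625 : (625 : ℝ) ≤ X := (le_max_right _ _).trans hX
  have hXpos : (0 : ℝ) < X := by linarith
  have hX1 : (1 : ℝ) ≤ X := by linarith
  obtain ⟨H, hH⟩ : ∃ H : ℕ, H = Nat.sqrt X := ⟨_, rfl⟩
  obtain ⟨q, hq⟩ : ∃ q : ℝ, q = (X : ℝ) ^ (1 / 4 : ℝ) := ⟨_, rfl⟩
  have hq0 : 0 ≤ q := by rw [hq]; positivity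
  have hq2 : q ^ 2 = √(X : ℝ) := by
    rw [hq, ← Real.rpow_natCast, ← Real.rpow_mul hXpos.le, Real.sqrt_eq_rpow]
    norm_num
  have hq5 : 5 ≤ q := by
    rw [hq]
    calc (5 : ℝ) = (625 : ℝ) ^ (1 / 4 : ℝ) := by
          rw [show (625 : ℝ) = 5 ^ (4 : ℕ) by norm_num, ← Real.rpow_natCast,
            ← Real.rpow_mul (by norm_num)]
          norm_num
      _ ≤ _ := Real.rpow_le_rpow (by norm_num) hX625 (by norm_num)
  have hs0 : 0 ≤ √(X : ℝ) := Real.sqrt_nonneg _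
  have hH1 : (H : ℝ) ≤ √(X : ℝ) := by rw [hH]; exact Real.nat_sqrt_le_real_sqrt
  have hH2 : √(X : ℝ) < H + 1 := by rw [hH]; exact Real.real_sqrt_lt_nat_sqrt_succ
  have hP0 : 0 < P := by linarith
  have hPq : P ≤ q := by
    rw [hq]
    exact hP2.trans (Real.rpow_le_rpow_of_exponent_le hX1 (by linarith))
  have hHP : 4 * P ≤ H := by nlinarith
  have hHpos : (0 : ℝ) < H := by linarith
  obtain ⟨h, hh⟩ : ∃ h : ℕ, h = ⌊(H : ℝ) / (2 * P)⌋₊ := ⟨_, rfl⟩
  have hh1 : (h : ℝ) ≤ (H : ℝ) / (2 * P) := by rw [hh]; exact Nat.floor_le (by positivity)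
  have hh2 : (H : ℝ) / (2 * P) < h + 1 := by rw [hh]; exact Nat.lt_floor_add_one _
  have hh3 : (H : ℝ) / (4 * P) ≤ h := by
    have e1 : (H : ℝ) / (2 * P) = 2 * ((H : ℝ) / (4 * P)) := by field_simp; ring
    have e2 : 1 ≤ (H : ℝ) / (4 * P) := by
      rw [le_div_iff₀ (by positivity)]
      linarith
    linarith
  have hh4 : (1 : ℝ) ≤ h := by
    have e2 : 1 ≤ (H : ℝ) / (4 * P) := by
      rw [le_div_iff₀ (by positivity)]
      linarith
    linarith
  have hh5 : 1 ≤ h := by exact_mod_cast hh4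
  have hhH : h ≤ H := by
    have : (h : ℝ) ≤ H := by
      refine hh1.trans ?_
      rw [div_le_iff₀ (by positivity)]
      nlinarith
    exact_mod_cast this
  have hBle : P / H ≤ 1 / (2 * h) := by
    rw [le_div_iff₀ (by positivity)] at hh1
    rw [div_le_div_iff₀ hHpos (by positivity)]
    linarith
  have hgal := hG (fun n => ((th n : ℝ) : ℂ) * c.ev n - ((mwt o c n : ℝ) : ℂ)) (2 * H) (3 * H) h
    (P / H) hh5 (by omega) (by omega) (by positivity) hBle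
  obtain ⟨Z, hZ⟩ : ∃ Z : ℝ, Z = ZS o c (2 * η) X (√(X : ℝ)) := ⟨_, rfl⟩
  have hZ0 : 0 ≤ Z := by rw [hZ]; exact zs_nonneg_NEF _ _ _ _ _ hs0
  obtain ⟨E, hE⟩ : ∃ E : ℝ, E = (X : ℝ) ^ (-(η / 100)) := ⟨_, rfl⟩
  have hE0 : 0 ≤ E := by rw [hE]; positivity
  obtain ⟨E', hE'⟩ : ∃ E' : ℝ, E' = (X : ℝ) ^ (-(η / 200)) := ⟨_, rfl⟩
  have hE'0 : 0 ≤ E' := by rw [hE']; positivity
  have hPE : P * E ≤ E' := by
    calc P * E ≤ (X : ℝ) ^ (η / 100000) * E := mul_le_mul_of_nonneg_right hP2 hE0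
      _ = (X : ℝ) ^ (η / 100000 + -(η / 100)) := by rw [hE, ← Real.rpow_add hXpos]
      _ ≤ E' := by
        rw [hE']
        exact Real.rpow_le_rpow_of_exponent_le hX1 (by linarith)
  -- one window
  have hwin : ∀ y ∈ Ico (2 * H - h) (3 * H),
      ‖∑ n ∈ (Ioc y (y + h)).filter (fun n => 2 * H < n ∧ n ≤ 3 * H),
        (((th n : ℝ) : ℂ) * c.ev n - ((mwt o c n : ℝ) : ℂ))‖ ^ 2 ≤
      (C * (h * Z + √(X : ℝ) * E)) ^ 2 := by
    intro y hy
    rw [mem_Ico] at hy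
    refine pow_le_pow_left₀ (norm_nonneg _) ?_ 2
    rw [window_NEF H h y hy.1 hy.2]
    have h1 := hF X o c (max y (2 * H)) (min (y + h) (3 * H) - max y (2 * H)) hXX0 ho hc
      (by rw [← hH]; exact le_max_right _ _) (by rw [← hH]; omega)
    refine h1.trans ?_
    rw [← hZ, ← hE]
    refine mul_le_mul_of_nonneg_left ?_ (by linarith)
    have h2 : ((min (y + h) (3 * H) - max y (2 * H) : ℕ) : ℝ) ≤ h := by
      exact_mod_cast (by omega : min (y + h) (3 * H) - max y (2 * H) ≤ h)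
    have h3 := mul_le_mul_of_nonneg_right h2 hZ0
    linarith
  have hsum := sum_le_sum hwin
  rw [sum_const, nsmul_eq_mul, Nat.card_Ico] at hsum
  have hcard : ((3 * H - (2 * H - h) : ℕ) : ℝ) ≤ 2 * H := by
    exact_mod_cast (by omega : 3 * H - (2 * H - h) ≤ 2 * H)
  have hsE : √(X : ℝ) * E ≤ 5 * h * E' := by
    have h1 : √(X : ℝ) ≤ 5 * h * P := by
      rw [div_le_iff₀ (by positivity)] at hh3
      nlinarith
    calc √(X : ℝ) * E ≤ 5 * h * P * E := mul_le_mul_of_nonneg_right h1 hE0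
      _ = 5 * h * (P * E) := by ring
      _ ≤ 5 * h * E' := mul_le_mul_of_nonneg_left hPE (by positivity)
  have hmain : C * (h * Z + √(X : ℝ) * E) ≤ 5 * C * h * (Z + E') := by
    have h1 : h * Z + √(X : ℝ) * E ≤ 5 * h * (Z + E') := by
      have : 0 ≤ (h : ℝ) * Z := by positivity
      linarith
    calc C * (h * Z + √(X : ℝ) * E) ≤ C * (5 * h * (Z + E')) :=
          mul_le_mul_of_nonneg_left h1 (by linarith)
      _ = _ := by ring
  have hmain0 : 0 ≤ C * (h * Z + √(X : ℝ) * E) := by positivity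
  have hmain2 : (C * (h * Z + √(X : ℝ) * E)) ^ 2 ≤ (5 * C * h * (Z + E')) ^ 2 :=
    pow_le_pow_left₀ hmain0 hmain 2
  rw [← hH, ← hZ, ← hE']
  unfold nrm
  rw [Real.sqrt_le_iff]
  refine ⟨by positivity, ?_⟩
  have hint : ∫ β in (-(P / H))..(P / H), ‖Ef o c H β‖ ^ 2 ≤ Real.pi ^ 2 / (4 * (h : ℝ) ^ 2) *
      (2 * H * (5 * C * h * (Z + E')) ^ 2) := by
    refine le_trans ?_ (hgal.trans ?_)
    · exact le_of_eq rfl
    · refine mul_le_mul_of_nonneg_left (hsum.trans ?_) (by positivity)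
      exact mul_le_mul hcard hmain2 (by positivity) (by positivity)
  refine hint.trans ?_
  have hpi : Real.pi ^ 2 ≤ 10 := by
    have := Real.pi_lt_d2
    have h0 := Real.pi_pos
    nlinarith
  have e1 : Real.pi ^ 2 / (4 * (h : ℝ) ^ 2) * (2 * H * (5 * C * h * (Z + E')) ^ 2) =
      Real.pi ^ 2 * (25 / 2) * (C ^ 2 * H * (Z + E') ^ 2) := by
    field_simp
    ring
  have e2 : (12 * C * √(H : ℝ) * (Z + E')) ^ 2 = 144 * (C ^ 2 * H * (Z + E') ^ 2) := by
    rw [mul_pow, mul_pow, Real.sq_sqrt hHpos.le]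
    ring
  rw [e1, e2]
  refine mul_le_mul_of_nonneg_right (by linarith) (by positivity)

end Pool.Agent.Helper73.MV
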