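import Pool.Agent.Helper23.MV.StH

/-! Project MV, module SM1: sum over the zeros of nonprincipal characters -/

set_option autoImplicit false

namespace Pool.Agent.Helper73.MV

open Pool.Agent.Helper23.MV Finset

private lemma floor_close_SM1 {x y : ℝ} (h : ⌊x⌋ = ⌊y⌋) : |x - y| ≤ 1 := by
  have h1 := Int.floor_le x
  have h2 := Int.lt_floor_add_one x
  have h3 := Int.floor_le y
  have h4 := Int.lt_floor_add_one y
  have h5 : ((⌊x⌋ : ℤ) : ℝ) = ⌊y⌋ := by rw [h]
  rw [abs_le]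
  constructor <;> linarith

private lemma floor_far_SM1 {x y : ℝ} (h : 2 ≤ |⌊x⌋ - ⌊y⌋|) : 1 ≤ |x - y| := by
  have h1 := Int.floor_le x
  have h2 := Int.lt_floor_add_one x
  have h3 := Int.floor_le y
  have h4 := Int.lt_floor_add_one y
  rw [le_abs] at h ⊢
  rcases h with h | h
  · left
    have : (2 : ℝ) ≤ ⌊x⌋ - ⌊y⌋ := by exact_mod_cast h
    linarith
  · right
    have : (2 : ℝ) ≤ -(⌊x⌋ - ⌊y⌋) := by exact_mod_cast h
    linarith

private lemma count_SM1 {L B M : ℝ} (hL : 0 < L) (hM : 0 ≤ M) (W : Finset ((_ : PCh) × ℂ))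
    (hlfd : ∀ F : Finset (PCh × ℂ), (∀ v ∈ F, (⟨v.1, v.2⟩ : (_ : PCh) × ℂ) ∈ W) →
      (∀ v ∈ F, ∀ v' ∈ F, v ≠ v' → v.1 = v'.1 → 1 / L ≤ |v.2.im - v'.2.im|) → (F.card : ℝ) ≤ B)
    (hzct : ∀ (e : PCh) (ρ₀ : ℂ) (S : Finset ℂ), (⟨e, ρ₀⟩ : (_ : PCh) × ℂ) ∈ W →
      (∀ ρ ∈ S, (⟨e, ρ⟩ : (_ : PCh) × ℂ) ∈ W ∧ |ρ.im - ρ₀.im| ≤ 1 / L) →
      ∑ ρ ∈ S, (mz e ρ : ℝ) ≤ M) :
    ∑ x ∈ W, (mz x.1 x.2 : ℝ) ≤ 2 * B * M := by
  classical
  let key : ((_ : PCh) × ℂ) → PCh × ℤ := fun x => (x.1, ⌊x.2.im * L⌋)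
  have hB0 : 0 ≤ B := by
    have := hlfd ∅ (by simp) (by simp)
    simpa using this
  rcases W.eq_empty_or_nonempty with hWe | ⟨w0, hw0⟩
  · rw [hWe, sum_empty]
    positivity
  have : Nonempty ((_ : PCh) × ℂ) := ⟨w0⟩
  -- representatives
  have hrep : ∀ b ∈ W.image key, ∃ x ∈ W, key x = b := by
    intro b hb
    simpa using hb
  choose! rep hrepW hrepk using hrep
  -- separated sets of keys
  have hsep : ∀ K : Finset (PCh × ℤ), K ⊆ W.image key →
      (∀ b ∈ K, ∀ b' ∈ K, b ≠ b' → b.1 = b'.1 → 2 ≤ |b.2 - b'.2|) → (K.card : ℝ) ≤ B := by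
    intro K hK hK2
    let F : Finset (PCh × ℂ) := K.image (fun b => ((rep b).1, (rep b).2))
    have hinj : Set.InjOn (fun b => ((rep b).1, (rep b).2)) (K : Set (PCh × ℤ)) := by
      intro b hb b' hb' h
      have e1 : (rep b).1 = (rep b').1 := congrArg Prod.fst h
      have e2 : (rep b).2 = (rep b').2 := congrArg Prod.snd h
      rw [← hrepk b (hK hb), ← hrepk b' (hK hb')]
      simp only [key, e1, e2]
    have hc : F.card = K.card := card_image_of_injOn hinj
    rw [← hc]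
    refine hlfd F ?_ ?_
    · intro v hv
      obtain ⟨b, hb, rfl⟩ := mem_image.mp hv
      exact hrepW b (hK hb)
    · intro v hv v' hv' hne h1
      obtain ⟨b, hb, rfl⟩ := mem_image.mp hv
      obtain ⟨b', hb', rfl⟩ := mem_image.mp hv'
      have k1 := hrepk b (hK hb)
      have k2 := hrepk b' (hK hb')
      have hbb : b ≠ b' := fun h => hne (by rw [h])
      have e1 : b.1 = b'.1 := by
        rw [← k1, ← k2]
        exact h1
      have h2 := hK2 b hb b' hb' hbb e1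
      have e2 : b.2 = ⌊(rep b).2.im * L⌋ := by rw [← congrArg Prod.snd k1]
      have e3 : b'.2 = ⌊(rep b').2.im * L⌋ := by rw [← congrArg Prod.snd k2]
      rw [e2, e3] at h2
      have h3 := floor_far_SM1 h2
      rw [← sub_mul, abs_mul, abs_of_pos hL] at h3
      rw [div_le_iff₀ hL]
      exact h3
  have hcard : ((W.image key).card : ℝ) ≤ 2 * B := by
    have h1 := card_filter_add_card_filter_not (s := W.image key) (fun b => b.2 % 2 = 0)
    have h2 := hsep ((W.image key).filter (fun b => b.2 % 2 = 0)) (filter_subset _ _) (by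
      intro b hb b' hb' hne h
      have m1 := (mem_filter.mp hb).2
      have m2 := (mem_filter.mp hb').2
      have m3 : b.2 ≠ b'.2 := fun h' => hne (Prod.ext h h')
      rw [le_abs]
      omega)
    have h3 := hsep ((W.image key).filter (fun b => ¬ b.2 % 2 = 0)) (filter_subset _ _) (by
      intro b hb b' hb' hne h
      have m1 := (mem_filter.mp hb).2
      have m2 := (mem_filter.mp hb').2
      have m3 : b.2 ≠ b'.2 := fun h' => hne (Prod.ext h h')
      rw [le_abs]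
      omega)
    have h4 : ((W.image key).card : ℝ) =
      ((W.image key).filter (fun b => b.2 % 2 = 0)).card +
      ((W.image key).filter (fun b => ¬ b.2 % 2 = 0)).card := by exact_mod_cast h1.symm
    linarith
  have hfib : ∀ b ∈ W.image key, ∑ x ∈ W.filter (fun x => key x = b), (mz x.1 x.2 : ℝ) ≤ M := by
    intro b hb
    have hW0 := hrepW b hb
    have hk0 := hrepk b hb
    have e0 : (rep b).1 = b.1 := congrArg Prod.fst hk0
    have e0' : ⌊(rep b).2.im * L⌋ = b.2 := congrArg Prod.snd hk0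
    have h1 : ∑ x ∈ W.filter (fun x => key x = b), (mz x.1 x.2 : ℝ) =
        ∑ ρ ∈ (W.filter (fun x => key x = b)).image (fun x => x.2), (mz b.1 ρ : ℝ) := by
      rw [sum_image]
      · refine sum_congr rfl ?_
        intro x hx
        have hx2 := (mem_filter.mp hx).2
        have e1 : x.1 = b.1 := congrArg Prod.fst hx2
        rw [e1]
      · intro x hx y hy hxy
        have hx2 := (mem_filter.mp hx).2
        have hy2 := (mem_filter.mp hy).2
        have e1 : x.1 = b.1 := congrArg Prod.fst hx2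
        have e2 : y.1 = b.1 := congrArg Prod.fst hy2
        obtain ⟨x1, x2⟩ := x
        obtain ⟨y1, y2⟩ := y
        simp only at e1 e2 hxy
        subst e1
        subst e2
        subst hxy
        rfl
    rw [h1]
    have hW1 : (⟨b.1, (rep b).2⟩ : (_ : PCh) × ℂ) ∈ W := by
      rw [← e0]
      exact hW0
    refine hzct b.1 (rep b).2 _ hW1 ?_
    intro ρ hρ
    obtain ⟨x, hx, rfl⟩ := mem_image.mp hρ
    obtain ⟨hx1, hx2⟩ := mem_filter.mp hx
    have e1 : x.1 = b.1 := congrArg Prod.fst hx2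
    have e2 : ⌊x.2.im * L⌋ = b.2 := congrArg Prod.snd hx2
    refine ⟨by rw [← e1]; exact hx1, ?_⟩
    have h3 := floor_close_SM1 (e2.trans e0'.symm)
    rw [← sub_mul, abs_mul, abs_of_pos hL] at h3
    rw [le_div_iff₀ hL]
    exact h3
  calc ∑ x ∈ W, (mz x.1 x.2 : ℝ)
      = ∑ b ∈ W.image key, ∑ x ∈ W.filter (fun x => key x = b), (mz x.1 x.2 : ℝ) :=
        (sum_fiberwise_of_maps_to (fun x hx => mem_image_of_mem _ hx) _).symm
    _ ≤ ∑ b ∈ W.image key, M := sum_le_sum hfib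
    _ = (W.image key).card * M := by rw [sum_const, nsmul_eq_mul]
    _ ≤ 2 * B * M := mul_le_mul_of_nonneg_right hcard hM

private lemma summ_SM1 : Summable (fun j : ℕ => (2 * (j : ℝ) + 3) * Real.exp (-(1 / 5) * j)) := by
  have h1 := Real.summable_pow_mul_exp_neg_nat_mul 1 (r := 1 / 5) (by norm_num)
  have h0 := Real.summable_pow_mul_exp_neg_nat_mul 0 (r := 1 / 5) (by norm_num)
  have h := (h1.mul_left 2).add (h0.mul_left 3)
  refine h.congr ?_
  intro j
  simp only [pow_one, pow_zero]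
  ring_nf

theorem hSm1 (hF : StFin) (hZ : StZct) (hD : StLfd) : StSm1 := by
  classical
  obtain ⟨hPS, hZF, hzero⟩ := hF
  obtain ⟨A, c2, X2, hA, hc2, hc28, hX2, hZ⟩ := hZ
  obtain ⟨c1, C1, X1, hc1, hc1k, hC1, hX1, hD⟩ := hD (1 / 1000) (by norm_num) (by norm_num)
  obtain ⟨S0, hS0⟩ : ∃ S0 : ℝ, S0 = ∑' j : ℕ, (2 * (j : ℝ) + 3) * Real.exp (-(1 / 5) * j) :=
    ⟨_, rfl⟩
  have hS0n : 0 ≤ S0 := by
    rw [hS0]
    exact tsum_nonneg (fun j => by positivity)
  obtain ⟨μ, hμ⟩ : ∃ μ : ℝ, μ = min c1 c2 := ⟨_, rfl⟩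
  have hμ0 : 0 < μ := by rw [hμ]; exact lt_min hc1 hc2
  have hμ1 : μ ≤ c1 := by rw [hμ]; exact min_le_left _ _
  have hμ2 : μ ≤ c2 := by rw [hμ]; exact min_le_right _ _
  refine ⟨μ / 8, 1 + 4 * C1 * A * Real.exp (1 / 4) * S0, max (max X1 X2) (Real.exp (4 / μ)),
    by positivity, by linarith, ?_, le_trans hX1 ((le_max_left _ _).trans (le_max_left _ _)), ?_⟩
  · have : 0 ≤ 4 * C1 * A * Real.exp (1 / 4) * S0 := by positivity
    linarith
  intro X lm hX hlm
  have hXX1 : X1 ≤ X := ((le_max_left _ _).trans (le_max_left _ _)).trans hX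
  have hXX2 : X2 ≤ X := ((le_max_right _ _).trans (le_max_left _ _)).trans hX
  have hXe : Real.exp (4 / μ) ≤ X := (le_max_right _ _).trans hX
  have hX0 : 0 < X := by linarith
  have hX1' : 1 ≤ X := by linarith
  obtain ⟨L, hLd⟩ : ∃ L : ℝ, L = Real.log X := ⟨_, rfl⟩
  have hL4 : 4 / μ ≤ L := by
    rw [hLd, Real.le_log_iff_exp_le hX0]
    exact hXe
  have hL : 0 < L := lt_of_lt_of_le (by positivity) hL4
  have hLi : 1 / L ≤ μ / 4 := by
    rw [div_le_iff₀ hL]
    rw [div_le_iff₀ hμ0] at hL4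
    linarith
  have hexp : ∀ r : ℝ, X ^ r = Real.exp (r * L) := by
    intro r
    rw [Real.rpow_def_of_pos hX0, hLd, mul_comm]
  have hpow1 : X ^ (μ / 8) ≤ X ^ c1 := Real.rpow_le_rpow_of_exponent_le hX1' (by linarith)
  have hpow2 : X ^ (μ / 8) ≤ X ^ c2 := Real.rpow_le_rpow_of_exponent_le hX1' (by linarith)
  rw [sum_sigma', ← hLd]
  obtain ⟨V, hV⟩ : ∃ V : Finset ((_ : PCh) × ℂ), V = ((PS (X ^ (μ / 8))).filter (fun c => c.χ ≠ 1)).sigma
      (fun c => (ZF c (2 * (μ / 8)) X).filter (fun ρ => ρ.re ≤ 1 - lm / L)) := ⟨_, rfl⟩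
  rw [← hV]
  have hVm : ∀ x ∈ V, (x.1.r : ℝ) ≤ X ^ (μ / 8) ∧ x.1.χ ≠ 1 ∧ x.1.L x.2 = 0 ∧
      1 - μ / 4 ≤ x.2.re ∧ |x.2.im| ≤ X ∧ x.2.re ≤ 1 - lm / L ∧ x.2.re < 1 := by
    intro x hx
    rw [hV, mem_sigma, mem_filter, mem_filter, hPS, hZF _ _ _ _ (by linarith)] at hx
    obtain ⟨⟨h1, h2⟩, ⟨h3, h4, h5⟩, h6⟩ := hx
    exact ⟨h1, h2, h3, by linarith, h5, h6, (hzero _ _ h3 (by linarith)).1⟩
  let jj : ((_ : PCh) × ℂ) → ℕ := fun x => ⌊(1 - x.2.re) * L⌋₊
  have hj1 : ∀ x ∈ V, (jj x : ℝ) ≤ (1 - x.2.re) * L := by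
    intro x hx
    obtain ⟨-, -, -, -, -, -, h⟩ := hVm x hx
    exact Nat.floor_le (mul_nonneg (by linarith) hL.le)
  have hj2 : ∀ x, (1 - x.2.re) * L < jj x + 1 := fun x => Nat.lt_floor_add_one _
  have hjlm : ∀ x ∈ V, lm ≤ jj x + 1 := by
    intro x hx
    obtain ⟨-, -, -, -, -, h, -⟩ := hVm x hx
    have h1 := hj2 x
    have h2 : lm / L ≤ 1 - x.2.re := by linarith
    rw [div_le_iff₀ hL] at h2
    linarith
  -- the number of zeros in a layer
  have hN : ∀ j ∈ V.image jj, ∑ x ∈ V.filter (fun x => jj x = j), (mz x.1 x.2 : ℝ) ≤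
      2 * (C1 * Real.exp (1 / 50 * (j + 1))) * (A * (2 * j + 3)) := by
    intro j hj
    obtain ⟨x0, hx0, hx0j⟩ := mem_image.mp hj
    have hjb : (j : ℝ) ≤ μ / 4 * L := by
      have h1 := hj1 x0 hx0
      rw [hx0j] at h1
      obtain ⟨-, -, -, h, -, -, -⟩ := hVm x0 hx0
      refine h1.trans ?_
      exact mul_le_mul_of_nonneg_right (by linarith) hL.le
    have ha : ((j : ℝ) + 1) / L ≤ μ / 2 := by
      rw [add_div]
      have : (j : ℝ) / L ≤ μ / 4 := by rw [div_le_iff₀ hL]; exact hjb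
      linarith
    have hlow : ∀ x ∈ V.filter (fun x => jj x = j), 1 - ((j : ℝ) + 1) / L ≤ x.2.re := by
      intro x hx
      have h1 := hj2 x
      rw [(mem_filter.mp hx).2] at h1
      have h2 : 1 - x.2.re ≤ ((j : ℝ) + 1) / L := by
        rw [le_div_iff₀ hL]
        exact h1.le
      linarith
    refine count_SM1 hL (by positivity) _ ?_ ?_
    · intro F hF1 hF2
      have h := hD X (((j : ℝ) + 1) / L) F hXX1 (by positivity) (by linarith) ?_ ?_
      · refine h.trans (le_of_eq ?_)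
        rw [hexp]
        congr 2
        field_simp
        norm_num
      · intro v hv
        have h1 := hF1 v hv
        have h2 := hlow _ h1
        obtain ⟨g1, g2, g3, -, g5, -, -⟩ := hVm _ (mem_filter.mp h1).1
        exact ⟨g1.trans hpow1, g2, g3, h2, g5⟩
      · rw [← hLd]
        exact hF2
    · intro e ρ₀ S h0 hS
      obtain ⟨g1, g2, -, -, g5, -, -⟩ := hVm _ (mem_filter.mp h0).1
      have hu : 2 * (((j : ℝ) + 1) / L) ≤ c2 := by linarith
      have h := hZ X e ρ₀.im (2 * (((j : ℝ) + 1) / L)) S hXX2 (g1.trans hpow2) g5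
        (fun h => absurd h g2) ?_ hu ?_
      · refine h.trans (le_of_eq ?_)
        rw [← hLd]
        field_simp
        ring
      · rw [← hLd]
        have h1 : 1 / L ≤ ((j : ℝ) + 1) / L := by
          apply div_le_div_of_nonneg_right _ hL.le
          linarith [Nat.cast_nonneg (α := ℝ) j]
        have h2 : 0 < 1 / L := by positivity
        linarith
      · intro ρ hρ
        obtain ⟨k1, k2⟩ := hS ρ hρ
        obtain ⟨-, -, q3, -, -, -, q7⟩ := hVm _ (mem_filter.mp k1).1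
        have q8 := hlow _ k1
        refine ⟨q3, ?_⟩
        have n1 := Complex.norm_le_abs_re_add_abs_im (ρ - (1 + ρ₀.im * Complex.I))
        have n2 : (ρ - (1 + ρ₀.im * Complex.I)).re = ρ.re - 1 := by simp
        have n3 : (ρ - (1 + ρ₀.im * Complex.I)).im = ρ.im - ρ₀.im := by simp
        rw [n2, n3] at n1
        have n4 : |ρ.re - 1| ≤ ((j : ℝ) + 1) / L := by
          rw [abs_le]
          simp only at q7 q8
          constructor
          · linarith
          · have : 0 ≤ ((j : ℝ) + 1) / L := by positivity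
            linarith
        have n5 : 1 / L ≤ ((j : ℝ) + 1) / L := by
          apply div_le_div_of_nonneg_right _ hL.le
          linarith [Nat.cast_nonneg (α := ℝ) j]
        linarith
  -- summation over the layers
  have hterm : ∀ x ∈ V, X ^ ((x.2.re - 1) / 2) ≤ Real.exp (-(jj x : ℝ) / 2) := by
    intro x hx
    rw [hexp]
    apply Real.exp_le_exp.mpr
    have := hj1 x hx
    linarith
  have hlayer : ∀ j ∈ V.image jj, ∑ x ∈ V.filter (fun x => jj x = j),
      (mz x.1 x.2 : ℝ) * X ^ ((x.2.re - 1) / 2) ≤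
      4 * C1 * A * Real.exp (1 / 4) * Real.exp (-lm / 4) *
        ((2 * (j : ℝ) + 3) * Real.exp (-(1 / 5) * j)) := by
    intro j hj
    obtain ⟨x0, hx0, hx0j⟩ := mem_image.mp hj
    have hjl := hjlm x0 hx0
    rw [hx0j] at hjl
    have s1 : ∑ x ∈ V.filter (fun x => jj x = j), (mz x.1 x.2 : ℝ) * X ^ ((x.2.re - 1) / 2) ≤
        ∑ x ∈ V.filter (fun x => jj x = j), (mz x.1 x.2 : ℝ) * Real.exp (-(j : ℝ) / 2) := by
      refine sum_le_sum ?_
      intro x hx
      have h1 := hterm x (mem_filter.mp hx).1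
      rw [(mem_filter.mp hx).2] at h1
      exact mul_le_mul_of_nonneg_left h1 (Nat.cast_nonneg _)
    refine s1.trans ?_
    rw [← sum_mul]
    refine (mul_le_mul_of_nonneg_right (hN j hj) (Real.exp_nonneg _)).trans ?_
    have hK : 0 ≤ 2 * C1 * A * (2 * (j : ℝ) + 3) := by positivity
    have e1 : 2 * (C1 * Real.exp (1 / 50 * (j + 1))) * (A * (2 * j + 3)) * Real.exp (-(j : ℝ) / 2) =
        2 * C1 * A * (2 * (j : ℝ) + 3) * Real.exp (1 / 50 * (j + 1) + -(j : ℝ) / 2) := by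
      rw [Real.exp_add]
      ring
    have e2 : 4 * C1 * A * Real.exp (1 / 4) * Real.exp (-lm / 4) *
        ((2 * (j : ℝ) + 3) * Real.exp (-(1 / 5) * j)) =
        2 * C1 * A * (2 * (j : ℝ) + 3) *
          (2 * Real.exp (1 / 4 + -lm / 4 + -(1 / 5) * j)) := by
      rw [Real.exp_add, Real.exp_add]
      ring
    rw [e1, e2]
    refine mul_le_mul_of_nonneg_left ?_ hK
    have h3 : Real.exp (1 / 50 * (j + 1) + -(j : ℝ) / 2) ≤
        Real.exp (1 / 50) * Real.exp (1 / 4 + -lm / 4 + -(1 / 5) * j) := by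
      rw [← Real.exp_add]
      apply Real.exp_le_exp.mpr
      have : (0 : ℝ) ≤ j := Nat.cast_nonneg j
      linarith
    have h4 : Real.exp (1 / 50) ≤ 2 := by
      have := Real.exp_one_lt_d9
      have h5 : Real.exp (1 / 50 : ℝ) ^ 50 = Real.exp 1 := by
        rw [← Real.exp_nat_mul]
        norm_num
      by_contra hcon
      push Not at hcon
      have h6 : (2 : ℝ) ^ 50 ≤ Real.exp (1 / 50 : ℝ) ^ 50 :=
        pow_le_pow_left₀ (by norm_num) hcon.le 50
      rw [h5] at h6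
      norm_num at h6
      linarith
    exact h3.trans (mul_le_mul_of_nonneg_right h4 (Real.exp_nonneg _))
  have hfib : ∑ x ∈ V, (mz x.1 x.2 : ℝ) * X ^ ((x.2.re - 1) / 2) =
      ∑ j ∈ V.image jj, ∑ x ∈ V.filter (fun x => jj x = j),
        (mz x.1 x.2 : ℝ) * X ^ ((x.2.re - 1) / 2) :=
    (sum_fiberwise_of_maps_to (fun x hx => mem_image_of_mem _ hx) _).symm
  rw [hfib]
  refine (sum_le_sum hlayer).trans ?_
  rw [← mul_sum]
  have hs : ∑ j ∈ V.image jj, (2 * (j : ℝ) + 3) * Real.exp (-(1 / 5) * j) ≤ S0 := by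
    rw [hS0]
    exact summ_SM1.sum_le_tsum _ (fun j _ => by positivity)
  have hE : 0 ≤ Real.exp (-lm / 4) := Real.exp_nonneg _
  calc 4 * C1 * A * Real.exp (1 / 4) * Real.exp (-lm / 4) *
        ∑ j ∈ V.image jj, (2 * (j : ℝ) + 3) * Real.exp (-(1 / 5) * j)
      ≤ 4 * C1 * A * Real.exp (1 / 4) * Real.exp (-lm / 4) * S0 :=
        mul_le_mul_of_nonneg_left hs (by positivity)
    _ ≤ (1 + 4 * C1 * A * Real.exp (1 / 4) * S0) * Real.exp (-lm / 4) := by
        have : 4 * C1 * A * Real.exp (1 / 4) * Real.exp (-lm / 4) * S0 =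
          (4 * C1 * A * Real.exp (1 / 4) * S0) * Real.exp (-lm / 4) := by ring
        rw [this]
        nlinarith

end Pool.Agent.Helper73.MV
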